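import Pool.Agent.W870.PD.Stmts2

/-!
# INST-S: site percolation at the scale of cells
-/

set_option autoImplicit false
set_option linter.all false
set_option linter.deprecated false

open MeasureTheory Set Pool.Agent.H978R2 Pool.Agent.W804.HP Pool.Agent.W870.PD

namespace Pool.Agent.W366.PD

variable {d : ℕ}

/-- the cell of a point -/
def nc (k : ℕ) (x : Fin d → ℤ) : Fin d → ℤ := fun i => (x i + k) / (2 * (k : ℤ) + 1)

lemma nc_spec (k : ℕ) (x : Fin d → ℤ) (i : Fin d) :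
    -(k : ℤ) ≤ x i - (2 * (k : ℤ) + 1) * nc k x i ∧ x i - (2 * (k : ℤ) + 1) * nc k x i ≤ k := by
  unfold nc
  have hL : (0 : ℤ) < 2 * (k : ℤ) + 1 := by positivity
  have h1 := Int.emod_nonneg (x i + k) hL.ne'
  have h2 := Int.emod_lt_of_pos (x i + k) hL
  have h3 := Int.mul_ediv_add_emod (x i + k) (2 * (k : ℤ) + 1)
  constructor <;> linarith

lemma mem_nc (k : ℕ) (x : Fin d → ℤ) : x ∈ bx (cc k (nc k x)) k := by
  rw [mem_bx]
  intro i
  rw [abs_le]
  exact nc_spec k x i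

lemma mem_rr {k m : ℕ} {w x : Fin d → ℤ} : x ∈ bx (cc k w) (rr k m) ↔ nc k x ∈ bx w m := by
  rw [mem_bx, mem_bx]
  refine forall_congr' fun i => ?_
  obtain ⟨h1, h2⟩ := nc_spec k x i
  have hL : (0 : ℤ) < 2 * (k : ℤ) + 1 := by positivity
  have hcc : cc k w i = (2 * (k : ℤ) + 1) * w i := rfl
  have hrr : ((rr k m : ℕ) : ℤ) = (2 * (k : ℤ) + 1) * m + k := by
    unfold rr; push_cast; ring
  rw [hcc, hrr, abs_le, abs_le]
  set q := nc k x i with hq
  constructor
  · rintro ⟨h3, h4⟩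
    constructor
    · by_contra hcon
      have h5 : q - w i + 1 ≤ -(m : ℤ) := by linarith [Int.add_one_le_iff.2 (not_le.1 hcon)]
      have h6 := mul_le_mul_of_nonneg_left h5 hL.le
      nlinarith
    · by_contra hcon
      have h5 : (m : ℤ) + 1 ≤ q - w i := Int.add_one_le_iff.2 (not_le.1 hcon)
      have h6 := mul_le_mul_of_nonneg_left h5 hL.le
      nlinarith
  · rintro ⟨h3, h4⟩
    have h5 := mul_le_mul_of_nonneg_left h3 hL.le
    have h6 := mul_le_mul_of_nonneg_left h4 hL.le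
    constructor <;> nlinarith

lemma nc_eq {k : ℕ} {x z : Fin d → ℤ} (h : x ∈ bx (cc k z) k) : nc k x = z := by
  have h1 : x ∈ bx (cc k z) (rr k 0) := by
    have : rr k 0 = k := by unfold rr; ring
    rw [this]; exact h
  rw [mem_rr, mem_bx] at h1
  funext i
  have := h1 i
  have h2 : |nc k x i - z i| ≤ 0 := by exact_mod_cast this
  have h3 := abs_nonpos_iff.1 h2
  linarith

lemma sub_rr {k m m' : ℕ} {w w' : Fin d → ℤ} (h : bx w m ⊆ bx w' m') :
    bx (cc k w) (rr k m) ⊆ bx (cc k w') (rr k m') := by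
  intro x hx
  rw [mem_rr] at *
  exact h hx

lemma sph_nc {k m : ℕ} {w x : Fin d → ℤ} (h : x ∈ sph (cc k w) (rr k m)) :
    nc k x ∈ sph w m := by
  rw [mem_sph] at *
  obtain ⟨h1, i, hi⟩ := h
  refine ⟨mem_rr.1 h1, i, ?_⟩
  have h3 := mem_bx.1 (mem_rr.1 h1) i
  refine le_antisymm h3 ?_
  obtain ⟨h1, h2⟩ := nc_spec k x i
  have hL : (0 : ℤ) < 2 * (k : ℤ) + 1 := by positivity
  have hcc : cc k w i = (2 * (k : ℤ) + 1) * w i := rfl
  have hrr : ((rr k m : ℕ) : ℤ) = (2 * (k : ℤ) + 1) * m + k := by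
    unfold rr; push_cast; ring
  rw [hcc, hrr] at hi
  set q := nc k x i with hq
  by_contra hcon
  have h5 : |q - w i| + 1 ≤ (m : ℤ) := Int.add_one_le_iff.2 (not_le.1 hcon)
  have h6 : |q - w i| ≤ (m : ℤ) - 1 := by linarith
  rw [abs_le] at h6
  have h7 := mul_le_mul_of_nonneg_left h6.1 hL.le
  have h8 := mul_le_mul_of_nonneg_left h6.2 hL.le
  have h9 : |x i - (2 * (k : ℤ) + 1) * w i| ≤ (2 * (k : ℤ) + 1) * (m - 1) + k := by
    rw [abs_le]
    constructor <;> nlinarith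
  rw [hi] at h9
  nlinarith

/-- the edges with an end point in a box -/
noncomputable def sU (z : Fin d → ℤ) (r : ℕ) : Finset (Sym2 (Fin d → ℤ)) := by
  classical
  exact (((bx z r) ×ˢ (Finset.univ : Finset (Fin d))).image (fun p => s(p.1, p.1 + ev p.2))) ∪
    (((bx z r) ×ˢ (Finset.univ : Finset (Fin d))).image (fun p => s(p.1, p.1 - ev p.2)))

lemma mem_sU {z : Fin d → ℤ} {r : ℕ} {e : Sym2 (Fin d → ℤ)} :
    e ∈ sU z r ↔ e ∈ (lat d).edgeSet ∧ (∃ v ∈ e, v ∈ bx z r) := by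
  classical
  unfold sU
  rw [Finset.mem_union, Finset.mem_image, Finset.mem_image]
  constructor
  · rintro (⟨⟨x, i⟩, h1, rfl⟩ | ⟨⟨x, i⟩, h1, rfl⟩)
    · exact ⟨lat_adj_ev x i, ⟨x, Sym2.mem_mk_left _ _, (Finset.mem_product.1 h1).1⟩⟩
    · refine ⟨?_, ⟨x, Sym2.mem_mk_left _ _, (Finset.mem_product.1 h1).1⟩⟩
      have := (lat_adj_ev (x - ev i) i).symm
      rw [sub_add_cancel] at this
      exact this
  · rintro ⟨h1, ⟨v, hv, hvb⟩⟩
    obtain ⟨w, rfl⟩ := hv
    have hadj : (lat d).Adj v w := h1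
    obtain ⟨i, h | h⟩ := lat_adj_iff.1 hadj
    · left
      refine ⟨(v, i), Finset.mem_product.2 ⟨hvb, Finset.mem_univ _⟩, ?_⟩
      rw [h]
    · right
      refine ⟨(v, i), Finset.mem_product.2 ⟨hvb, Finset.mem_univ _⟩, ?_⟩
      show s(v, v - ev i) = s(v, w)
      have : v - ev i = w := by rw [h]; simp
      rw [this]

lemma card_sU_le (z : Fin d → ℤ) (r : ℕ) : (sU z r).card ≤ 2 * d * (2 * r + 1) ^ d := by
  classical
  unfold sU
  refine (Finset.card_union_le _ _).trans ?_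
  have h1 : ((((bx z r) ×ˢ (Finset.univ : Finset (Fin d))).image
      (fun p => s(p.1, p.1 + ev p.2)))).card ≤ (2 * r + 1) ^ d * d := by
    refine Finset.card_image_le.trans ?_
    rw [Finset.card_product, Finset.card_univ, Fintype.card_fin, card_bx]
  have h2 : ((((bx z r) ×ˢ (Finset.univ : Finset (Fin d))).image
      (fun p => s(p.1, p.1 - ev p.2)))).card ≤ (2 * r + 1) ^ d * d := by
    refine Finset.card_image_le.trans ?_
    rw [Finset.card_product, Finset.card_univ, Fintype.card_fin, card_bx]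
  have h3 : 2 * d * (2 * r + 1) ^ d = (2 * r + 1) ^ d * d + (2 * r + 1) ^ d * d := by ring
  omega

/-- polynomially bounded -/
def PB (f : ℕ → ℕ) : Prop := ∃ a : ℕ, ∀ k : ℕ, 2 ≤ k → f k ≤ k ^ a

lemma PB.const (c : ℕ) : PB (fun _ => c) := by
  refine ⟨c, fun k hk => ?_⟩
  exact (Nat.lt_two_pow_self (n := c)).le.trans (Nat.pow_le_pow_left hk c)

lemma PB.id : PB (fun k => k) := ⟨1, fun k _ => by rw [pow_one]⟩

lemma PB.mul {f g : ℕ → ℕ} (hf : PB f) (hg : PB g) : PB (fun k => f k * g k) := by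
  obtain ⟨a, ha⟩ := hf
  obtain ⟨b, hb⟩ := hg
  refine ⟨a + b, fun k hk => ?_⟩
  rw [pow_add]
  exact Nat.mul_le_mul (ha k hk) (hb k hk)

lemma PB.pow {f : ℕ → ℕ} (hf : PB f) (n : ℕ) : PB (fun k => f k ^ n) := by
  obtain ⟨a, ha⟩ := hf
  refine ⟨a * n, fun k hk => ?_⟩
  rw [pow_mul]
  exact Nat.pow_le_pow_left (ha k hk) n

lemma PB.add {f g : ℕ → ℕ} (hf : PB f) (hg : PB g) : PB (fun k => f k + g k) := by
  obtain ⟨a, ha⟩ := hf
  obtain ⟨b, hb⟩ := hg
  refine ⟨a + b + 1, fun k hk => ?_⟩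
  have h1 : k ^ a ≤ k ^ (a + b) := Nat.pow_le_pow_right (by omega) (by omega)
  have h2 : k ^ b ≤ k ^ (a + b) := Nat.pow_le_pow_right (by omega) (by omega)
  have h3 : k ^ (a + b) * 2 ≤ k ^ (a + b + 1) := by
    rw [pow_succ]; exact Nat.mul_le_mul_left _ hk
  have := ha k hk
  have := hb k hk
  show f k + g k ≤ _
  omega

lemma two_rr (k m : ℕ) : 2 * rr k m + 1 = (2 * k + 1) * (2 * m + 1) := by
  unfold rr; ring

/-- the deterministic data -/
noncomputable def geoS (d k q : ℕ) (h1 : 2 * d * (2 * k + 1) ^ d ≤ q) (h2 : (2 * k + 3) ^ d ≤ q)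
    (h3 : 4 * d ^ 2 * (2 * k + 1) ^ d ≤ q) (h4 : (2 * k + 1) ^ d ≤ q) :
    Geo d (Fin d → ℤ) (Sym2 (Fin d → ℤ)) where
  N := sN
  E := fun w m => bx (cc k w) (rr k m)
  F := fun w m => sF (cc k w) (rr k m)
  U := fun z => sU (cc k z) k
  T := fun z => bx (cc k z) (k + 1)
  q := q
  E_mono := fun w m w' m' h => sub_rr h
  exit := fun w m w' m' ω z u f h hz hu hf hc => by
    refine site_exit _ _ _ _ ω u f (sub_rr h) ?_ hf hc
    obtain ⟨_, v, hv, hvb⟩ := mem_sU.1 hu
    refine ⟨v, hv, mem_rr.2 ?_⟩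
    rw [nc_eq hvb]; exact hz
  lvl := fun w m f hf => by
    obtain ⟨h1, ⟨v, hv, hvb⟩, u, hu, hub⟩ := mem_sF.1 hf
    have hne : v ≠ u := by rintro rfl; exact hub hvb
    have he : f = s(v, u) := (Sym2.mem_and_mem_iff hne).1 ⟨hv, hu⟩
    subst he
    have hadj : (lat d).Adj v u := h1
    have hs : v ∈ sph (cc k w) (rr k m) := by
      by_contra hs
      exact hub (adj_mem_bx hadj hvb hs)
    exact ⟨nc k v, sph_nc hs, mem_sU.2 ⟨h1, v, hv, mem_nc k v⟩⟩
  cov := fun w m i hi v hv => ⟨nc k i, mem_rr.1 hi, mem_sU.2 ⟨hv.1, i, hv.2, mem_nc k i⟩⟩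
  mem_T := fun w m i z v hi hv hvz => by
    obtain ⟨h1, u, hu, hub⟩ := mem_sU.1 hvz
    by_cases hiu : i = u
    · rw [hiu]; exact bx_mono _ (Nat.le_succ k) hub
    · have he : v = s(i, u) := (Sym2.mem_and_mem_iff hiu).1 ⟨hv.2, hu⟩
      subst he
      have hadj : (lat d).Adj i u := h1
      rw [mem_bx] at hub ⊢
      intro j
      have h2 := adj_abs_le hadj j
      have h3 := hub j
      have h4 := abs_sub_le (i j) (u j) (cc k z j)
      push_cast
      linarith
  card_U := fun z => (card_sU_le _ _).trans h1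
  card_T := fun z => by
    rw [card_bx]
    exact le_of_eq_of_le (by ring_nf) h2
  card_E := fun w m => by
    rw [card_bx, two_rr, mul_pow]
    exact Nat.mul_le_mul_right _ h4
  card_F := fun w m => by
    refine (card_sF_le _ _).trans ?_
    have h5 : (2 * rr k m + 1) ^ (d - 1) ≤ (2 * rr k m + 1) ^ d :=
      Nat.pow_le_pow_right (by omega) (by omega)
    refine (Nat.mul_le_mul_left _ h5).trans ?_
    rw [two_rr, mul_pow, ← mul_assoc]
    exact Nat.mul_le_mul_right _ h3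
  ind := fun w w' m hi => by
    obtain ⟨i, hi⟩ := hi
    rw [Finset.disjoint_left]
    intro x hx hx'
    have h5 := mem_bx.1 (mem_rr.1 hx) i
    have h6 := mem_bx.1 (mem_rr.1 hx') i
    have h7 := abs_sub_le (w i) (nc k x i) (w' i)
    rw [abs_sub_comm (w i) (nc k x i)] at h7
    linarith

theorem instS : S_instS := by
  intro d p hp hd hp0 hPol
  obtain ⟨C, D, hC, hPol⟩ := hPol
  have p0 : (0 : ℝ) < p := by exact_mod_cast hp0
  obtain ⟨K1, hK1⟩ := exists_nat_ge (1 / (p : ℝ))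
  obtain ⟨K2, hK2⟩ := exists_nat_ge ((siteH d).KA p)
  set γ : ℕ := 3 * C + 1 with hγ
  have h2k1 : PB (fun k => 2 * k + 1) := ((PB.const 2).mul PB.id).add (PB.const 1)
  have h2k3 : PB (fun k => 2 * k + 3) := ((PB.const 2).mul PB.id).add (PB.const 3)
  have f1 : PB (fun k => 2 * d * (2 * k + 1) ^ d) := (PB.const (2 * d)).mul (h2k1.pow d)
  have f2 : PB (fun k => (2 * k + 3) ^ d) := h2k3.pow d
  have f3 : PB (fun k => 4 * d ^ 2 * (2 * k + 1) ^ d) := (PB.const (4 * d ^ 2)).mul (h2k1.pow d)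
  have f4 : PB (fun k => (2 * k + 1) ^ d) := h2k1.pow d
  have f5 : PB (fun _ => γ) := PB.const γ
  have f6 : PB (fun _ => K1) := PB.const K1
  have f7 : PB (fun k => ((2 * k + 1) * (2 * γ + 1)) ^ d) := (h2k1.mul (PB.const (2 * γ + 1))).pow d
  have f8 : PB (fun _ => (2 * γ + 1) ^ d) := PB.const _
  have f9 : PB (fun k => C * (5 * k) ^ D) := (PB.const C).mul (((PB.const 5).mul PB.id).pow D)
  have f10 : PB (fun _ => K2) := PB.const K2
  obtain ⟨A, hA⟩ := (((((((((f1.add f2).add f3).add f4).add f5).add f6).add f7).add f8).add f9).add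
    f10).add (PB.const 2)
  simp only at hA
  have hA1 : 1 ≤ A := by
    by_contra hcon
    have : A = 0 := by omega
    have := hA 2 le_rfl
    rw [‹A = 0›, pow_zero] at this
    exact absurd ((Nat.le_add_left 2 _).trans this) (by norm_num)
  refine ⟨A, hA1, fun k hk => ?_⟩
  have hAk := hA k hk
  set q := k ^ A with hq
  have g1 : 2 * d * (2 * k + 1) ^ d ≤ q := by omega
  have g2 : (2 * k + 3) ^ d ≤ q := by omega
  have g3 : 4 * d ^ 2 * (2 * k + 1) ^ d ≤ q := by omega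
  have g4 : (2 * k + 1) ^ d ≤ q := by omega
  have g5 : γ ≤ q := by omega
  have g6 : K1 ≤ q := by omega
  have g7 : ((2 * k + 1) * (2 * γ + 1)) ^ d ≤ q := by omega
  have g8 : (2 * γ + 1) ^ d ≤ q := by omega
  have g9 : C * (5 * k) ^ D ≤ q := by omega
  have g10 : K2 ≤ q := by omega
  have g11 : 2 ≤ q := by omega
  have hm : ∀ z : Fin d → ℤ, ∀ i ∈ bx (cc k z) (rr k γ), z ∈ bx (nc k i) γ := by
    intro z i hi
    have h5 := mem_bx.1 (mem_rr.1 hi)
    rw [mem_bx]
    intro j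
    rw [abs_sub_comm]
    exact h5 j
  refine ⟨{ geoS d k q g1 g2 g3 g4 with
    γ := γ
    q_pos := g11
    hγ := g5
    hpq := ?_
    card_γ := ?_
    mul := ?_
    glu := ?_
    arm := ?_ }, rfl, rfl, fun _ _ => rfl, fun _ _ => rfl, fun z e => mem_sU⟩
  · show (1 : ℝ) ≤ ((q : ℕ) : ℝ) * p
    have h5 : (1 : ℝ) / p ≤ (q : ℝ) := hK1.trans (by exact_mod_cast g6)
    rwa [div_le_iff₀ p0] at h5
  · intro z
    show (bx (cc k z) (rr k γ)).card ≤ q
    rw [card_bx, two_rr]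
    exact g7
  · intro i S hS
    show S.card ≤ q
    have h5 : S ⊆ bx (nc k i) γ := fun z hz => hm z i (hS z hz)
    refine (Finset.card_le_card h5).trans ?_
    rw [card_bx]
    exact g8
  · intro z z' hzz x hx y hy
    show (1 : ℝ) ≤ ((q : ℕ) : ℝ) * (bm _ p hp).real
      {ω | Con sN (bx (cc k z) (rr k γ)) ω x y}
    obtain ⟨hx1, a, ha, hab⟩ := mem_sU.1 hx
    obtain ⟨hy1, b, hb, hbb⟩ := mem_sU.1 hy
    have hz : ∀ i, |z i - z' i| ≤ 1 := by
      intro i
      rcases hzz with rfl | ⟨j, rfl⟩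
      · simp
      · by_cases hij : i = j
        · subst hij
          rw [Pi.add_apply, ev_self]
          simp
        · rw [Pi.add_apply, ev_ne hij]
          simp
    have hdiff : b - a ∈ bx (0 : Fin d → ℤ) (5 * k) := by
      rw [mem_bx]
      intro i
      have h5 := mem_bx.1 hab i
      have h6 := mem_bx.1 hbb i
      have h7 : cc k z i = (2 * (k : ℤ) + 1) * z i := rfl
      have h8 : cc k z' i = (2 * (k : ℤ) + 1) * z' i := rfl
      have h9 := hz i
      have hk' : (2 : ℤ) ≤ k := by exact_mod_cast hk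
      have hL : (0 : ℤ) < 2 * (k : ℤ) + 1 := by positivity
      rw [abs_le] at h5 h6 h9
      have h10 := mul_le_mul_of_nonneg_left h9.1 hL.le
      have h11 := mul_le_mul_of_nonneg_left h9.2 hL.le
      rw [Pi.sub_apply, Pi.zero_apply, sub_zero, abs_le]
      push_cast
      rw [h7] at h5
      rw [h8] at h6
      constructor <;> nlinarith [h5.1, h5.2, h6.1, h6.2]
    have h5 := hPol (5 * k) (by omega) (b - a) hdiff
    have h6 := XS_iso p hp (isoT a) 0 (b - a) 0 (C * (5 * k))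
    have e0 : (isoT a).σ 0 = a := by
      show a + 0 = a
      simp
    have e1 : (isoT a).σ (b - a) = b := by
      show a + (b - a) = b
      simp
    rw [e0, e1] at h6
    rw [← h6] at h5
    have hsub : bx a (C * (5 * k)) ⊆ bx (cc k z) (rr k γ) := by
      refine bx_subset fun i => ?_
      have h7 := mem_bx.1 hab i
      have h8 : ((rr k γ : ℕ) : ℤ) = (2 * (k : ℤ) + 1) * (3 * C + 1) + k := by
        rw [hγ]; unfold rr; push_cast; ring
      rw [h8]
      push_cast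
      have hk' : (0 : ℤ) ≤ (k : ℤ) * C := by positivity
      have hC' : (0 : ℤ) ≤ C := by positivity
      have hk'' : (0 : ℤ) ≤ k := by positivity
      nlinarith
    have h7 : XS a b a (C * (5 * k)) ⊆ {ω | Con sN (bx (cc k z) (rr k γ)) ω x y} := by
      rintro ω ⟨⟨h1, h2, h3, h4⟩, h5⟩
      exact ((con_site h1 h2 h3 h4 ⟨hx1, ha⟩ ⟨hy1, hb⟩).2 h5).mono hsub le_rfl
    have h8 := measureReal_mono (μ := bm _ p hp) h7 (measure_ne_top _ _)
    have h9 : (C : ℝ) * (((5 * k : ℕ) : ℝ)) ^ D ≤ (q : ℝ) := by exact_mod_cast g9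
    calc (1 : ℝ) ≤ C * (((5 * k : ℕ) : ℝ)) ^ D * (bm _ p hp).real (XS a b a (C * (5 * k))) := h5
      _ ≤ (q : ℝ) * (bm _ p hp).real (XS a b a (C * (5 * k))) :=
        mul_le_mul_of_nonneg_right h9 measureReal_nonneg
      _ ≤ _ := mul_le_mul_of_nonneg_left h8 (Nat.cast_nonneg _)
  · intro w r i hr hi
    show (bm _ p hp).real (TW sN (bx (cc k w) (rr k r)) (sF (cc k w) (rr k r)) i) ≤
      ((q : ℕ) : ℝ) / Real.sqrt ((r - γ : ℕ) : ℝ)
    have hi' : i ∈ bx (cc k w) (rr k γ) := hi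
    set R : ℕ := (2 * k + 1) * (r - γ) with hR
    have hR1 : r - γ ≤ R := by
      rw [hR]
      exact Nat.le_mul_of_pos_left _ (by omega)
    have hR0 : 1 ≤ r - γ := by omega
    have hsub : bx i R ⊆ bx (cc k w) (rr k r) := by
      refine bx_subset fun j => ?_
      have h5 := mem_bx.1 hi' j
      have h6 : ((rr k γ : ℕ) : ℤ) + (R : ℤ) = ((rr k r : ℕ) : ℤ) := by
        have : rr k γ + R = rr k r := by
          unfold rr
          rw [hR]
          have : (2 * k + 1) * γ + (2 * k + 1) * (r - γ) = (2 * k + 1) * r := by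
            rw [← mul_add]
            congr 1
            omega
          omega
        exact_mod_cast this
      rw [← h6]
      linarith
    have h5 := measureReal_mono (μ := bm _ p hp) ((siteH d).TW_anti hsub (self_mem_bx i R))
      (measure_ne_top _ _)
    refine h5.trans ?_
    have h6 := (siteH d).al_eq p hp () i R
    have e0 : (siteH d).tI i ((siteH d).b ()) = i := by
      show i + 0 = i
      simp
    rw [e0] at h6
    rw [h6]
    refine ((siteH d).al_bound p hp hp0 hd () R (hR0.trans hR1)).trans ?_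
    have hs0 : 0 < Real.sqrt ((r - γ : ℕ) : ℝ) := Real.sqrt_pos.2 (by exact_mod_cast hR0)
    have hs1 : Real.sqrt ((r - γ : ℕ) : ℝ) ≤ Real.sqrt ((R : ℕ) : ℝ) :=
      Real.sqrt_le_sqrt (by exact_mod_cast hR1)
    have hK : (siteH d).KA p ≤ (q : ℝ) := hK2.trans (by exact_mod_cast g10)
    calc (siteH d).KA p / Real.sqrt ((R : ℕ) : ℝ) ≤ (siteH d).KA p / Real.sqrt ((r - γ : ℕ) : ℝ) :=
          div_le_div_of_nonneg_left ((siteH d).KA_nonneg p) hs0 hs1
      _ ≤ (q : ℝ) / Real.sqrt ((r - γ : ℕ) : ℝ) := div_le_div_of_nonneg_right hK hs0.le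

end Pool.Agent.W366.PD
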